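import Mathlib

/-!
# Permutation wordle: the cyclic shift maximises the number of games of length three

For a set `A` of positions let `P_A` be the permutation which moves the entries at the positions in
`A` according to the strategy. The secrets found in exactly three guesses are in bijection with
pairs `(A, B)`, `B ⊆ A`, `|B| ≥ 2`, such that `P_B⁻¹` and `P_A` have no common arrow on `B`. For
every `A` with `k ≥ 3` elements and every deranged strategy there are at least `k` bad sets `B`
(pairs `{x, P_A x}` and triples containing a 2-cycle of `P_A`), and for the cyclic shift there are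
no others.
-/

set_option autoImplicit false

namespace Pool.Agent.Results.MP_433145_co.CyclicShiftBest

open Finset

/-- the set of positions at which the guess `γ` differs from the secret `π` -/
def wrong {n : ℕ} (γ π : Fin n → Fin n) : Finset (Fin n) := univ.filter (fun i => γ i ≠ π i)

/-- The next guess: it agrees with `γ` at the correct positions. If `i_1 < ⋯ < i_k` are the incorrect
positions, the entry of `γ` at `i_j` is placed at position `i_{S[k](j)}`; so the new entry at an
incorrect position `i = i_m` is the entry of `γ` at `i_j` with `j = S[k]⁻¹(m)`. -/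
def next {n : ℕ} (S : (k : ℕ) → Equiv.Perm (Fin k)) (γ π : Fin n → Fin n) : Fin n → Fin n :=
  fun i => if h : i ∈ wrong γ π then
    γ ((wrong γ π).orderIsoOfFin rfl
      ((S (wrong γ π).card).symm (((wrong γ π).orderIsoOfFin rfl).symm ⟨i, h⟩)))
  else γ i

/-- the guesses: `guess S π r` is the guess number `r + 1`, the first one is the identity -/
def guess {n : ℕ} (S : (k : ℕ) → Equiv.Perm (Fin k)) (π : Fin n → Fin n) : ℕ → (Fin n → Fin n)
  | 0 => id
  | r + 1 => next S (guess S π r) π

/-- the game with secret `π` ends after exactly `r` guesses -/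
def EndsAt {n : ℕ} (S : (k : ℕ) → Equiv.Perm (Fin k)) (π : Fin n → Fin n) (r : ℕ) : Prop :=
  1 ≤ r ∧ guess S π (r - 1) = π ∧ ∀ s, s + 1 < r → guess S π s ≠ π

/-- `a_r(S)` for secrets of length `n` -/
noncomputable def a (n : ℕ) (S : (k : ℕ) → Equiv.Perm (Fin k)) (r : ℕ) : ℕ :=
  Nat.card {π : Equiv.Perm (Fin n) // EndsAt S π r}

/-- the strategy is deranged (as a strategy of length `n`) -/
def Deranged (n : ℕ) (S : (k : ℕ) → Equiv.Perm (Fin k)) : Prop :=
  ∀ k, 2 ≤ k → k ≤ n → ∀ i, S k i ≠ i

/-- the cyclic shift strategy, `CS[k] = [2,3,…,k,1]` -/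
def CS (k : ℕ) : Equiv.Perm (Fin k) := finRotate k

variable {n : ℕ} {S : (k : ℕ) → Equiv.Perm (Fin k)}

/-- the permutation of positions belonging to the set `A` -/
noncomputable def rot (S : (k : ℕ) → Equiv.Perm (Fin k)) (A : Finset (Fin n)) :
    Equiv.Perm (Fin n) :=
  Equiv.Perm.ofSubtype (((A.orderIsoOfFin rfl).toEquiv.permCongr (S A.card)))

theorem rot_of_not_mem {A : Finset (Fin n)} {x : Fin n} (hx : x ∉ A) : rot S A x = x :=
  Equiv.Perm.ofSubtype_apply_of_not_mem _ hx

theorem rot_mem {A : Finset (Fin n)} (j : Fin A.card) :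
    rot S A (A.orderIsoOfFin rfl j) = A.orderIsoOfFin rfl (S A.card j) := by
  unfold rot
  rw [Equiv.Perm.ofSubtype_apply_of_mem _ (A.orderIsoOfFin rfl j).2]
  change ((A.orderIsoOfFin rfl) (S A.card ((A.orderIsoOfFin rfl).symm
    (A.orderIsoOfFin rfl j))) : Fin n) = _
  rw [OrderIso.symm_apply_apply]

theorem rot_mem' {A : Finset (Fin n)} {x : Fin n} (hx : x ∈ A) :
    rot S A x = A.orderIsoOfFin rfl (S A.card ((A.orderIsoOfFin rfl).symm ⟨x, hx⟩)) := by
  rw [← rot_mem]
  simp

theorem rot_mem_iff {A : Finset (Fin n)} {x : Fin n} : rot S A x ∈ A ↔ x ∈ A := by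
  constructor
  · intro h
    by_contra hx
    rw [rot_of_not_mem hx] at h
    exact hx h
  · intro hx
    rw [rot_mem' hx]
    exact (A.orderIsoOfFin rfl _).2

theorem rot_inv_mem_iff {A : Finset (Fin n)} {x : Fin n} : (rot S A)⁻¹ x ∈ A ↔ x ∈ A := by
  rw [← rot_mem_iff (S := S) (x := (rot S A)⁻¹ x)]
  simp

theorem rot_inv_of_not_mem {A : Finset (Fin n)} {x : Fin n} (hx : x ∉ A) :
    (rot S A)⁻¹ x = x := by
  rw [Equiv.Perm.inv_eq_iff_eq, rot_of_not_mem hx]

theorem rot_ne {A : Finset (Fin n)} (hS : Deranged n S) (h2 : 2 ≤ A.card) {x : Fin n}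
    (hx : x ∈ A) : rot S A x ≠ x := by
  rw [rot_mem' hx]
  intro h
  have hc : A.card ≤ n := by simpa using A.card_le_univ
  have h1 : (A.orderIsoOfFin rfl (S A.card ((A.orderIsoOfFin rfl).symm ⟨x, hx⟩))) = ⟨x, hx⟩ :=
    Subtype.ext h
  rw [← (A.orderIsoOfFin rfl).symm.injective.eq_iff] at h1
  simp only [OrderIso.symm_apply_apply] at h1
  exact hS A.card h2 hc _ h1

theorem rot_inv_ne {A : Finset (Fin n)} (hS : Deranged n S) (h2 : 2 ≤ A.card) {x : Fin n}
    (hx : x ∈ A) : (rot S A)⁻¹ x ≠ x := by
  intro h
  rw [Equiv.Perm.inv_eq_iff_eq] at h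
  exact rot_ne hS h2 hx h.symm

theorem next_eq (γ π : Fin n → Fin n) : next S γ π = γ ∘ ⇑(rot S (wrong γ π))⁻¹ := by
  funext i
  unfold next
  simp only [Function.comp_apply]
  split_ifs with h
  · congr 1
    symm
    rw [Equiv.Perm.inv_eq_iff_eq, rot_mem]
    simp
  · rw [rot_inv_of_not_mem h]

/-- the pair of sets of incorrect positions after the first two guesses -/
def Good (S : (k : ℕ) → Equiv.Perm (Fin k)) (A B : Finset (Fin n)) : Prop :=
  ∀ i ∈ B, (rot S B)⁻¹ i ≠ rot S A i

/-- the secret belonging to `(A, B)` -/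
noncomputable def sec (S : (k : ℕ) → Equiv.Perm (Fin k)) (p : Finset (Fin n) × Finset (Fin n)) :
    Equiv.Perm (Fin n) := (rot S p.1)⁻¹ * (rot S p.2)⁻¹

theorem wrong_id (π : Equiv.Perm (Fin n)) (x : Fin n) : x ∈ wrong id π ↔ π x ≠ x := by
  unfold wrong
  simp [ne_comm]

theorem wrong_id_sec (hS : Deranged n S) {A B : Finset (Fin n)} (hBA : B ⊆ A) (h2 : 2 ≤ B.card)
    (hg : Good S A B) : wrong id (sec S (A, B)) = A := by
  ext x
  rw [wrong_id]
  unfold sec
  rw [Equiv.Perm.mul_apply, ne_eq, Equiv.Perm.inv_eq_iff_eq]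
  constructor
  · intro h
    by_contra hx
    apply h
    rw [rot_of_not_mem hx, rot_inv_of_not_mem (fun h => hx (hBA h))]
  · intro hx
    by_cases hxB : x ∈ B
    · exact hg x hxB
    · have := rot_inv_of_not_mem (S := S) hxB
      rw [this]
      exact (rot_ne hS (h2.trans (card_le_card hBA)) hx).symm

theorem wrong_rot_sec (hS : Deranged n S) {A B : Finset (Fin n)} (h2 : 2 ≤ B.card) :
    wrong (⇑(rot S A)⁻¹) (sec S (A, B)) = B := by
  ext x
  unfold wrong sec
  simp only [Equiv.Perm.mul_apply, mem_filter, mem_univ, true_and, ne_eq,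
    EmbeddingLike.apply_eq_iff_eq]
  constructor
  · intro h
    by_contra hx
    exact h (rot_inv_of_not_mem hx).symm
  · intro hx
    exact fun h => rot_inv_ne hS h2 hx h.symm

theorem endsAt_iff (hS : Deranged n S) (π : Equiv.Perm (Fin n)) : EndsAt S π 3 ↔
    ∃ p : Finset (Fin n) × Finset (Fin n), (p.2 ⊆ p.1 ∧ 2 ≤ p.2.card ∧ Good S p.1 p.2) ∧
      sec S p = π := by
  constructor
  · rintro ⟨_, h1, h2⟩
    simp only [Nat.add_one_sub_one] at h1
    have h3 := h2 0 (by norm_num)
    have h4 := h2 1 (by norm_num)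
    simp only [guess, next_eq, Function.id_comp] at h1 h3 h4
    set A := wrong id π with hA
    set B := wrong (⇑(rot S A)⁻¹) π with hB
    have h5 : sec S (A, B) = π := by
      ext x
      rw [← h1]
      rfl
    have hBne : B ≠ ∅ := by
      intro h
      apply h4
      funext x
      have : x ∉ B := by rw [h]; simp
      rw [hB] at this
      unfold wrong at this
      simpa using this
    have hB2 : 2 ≤ B.card := by
      by_contra hc
      have : B.card = 1 := by
        have := Finset.card_pos.2 (Finset.nonempty_iff_ne_empty.2 hBne)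
        omega
      obtain ⟨x, hx⟩ := Finset.card_eq_one.1 this
      have hxB : x ∈ B := by rw [hx]; simp
      have h6 : (rot S B)⁻¹ x = x := by
        have : (rot S B)⁻¹ x ∈ B := rot_inv_mem_iff.2 hxB
        rw [hx, mem_singleton] at this
        rw [hx]
        exact this
      have h7 : π x = (rot S A)⁻¹ x := by
        rw [← h5]
        unfold sec
        simp only [Equiv.Perm.mul_apply, h6]
      rw [hB] at hxB
      unfold wrong at hxB
      simp only [mem_filter, mem_univ, true_and] at hxB
      exact hxB h7.symm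
    refine ⟨(A, B), ⟨?_, hB2, ?_⟩, h5⟩
    · intro x hx
      by_contra hxA
      have hxA' := hxA
      rw [hA, wrong_id, not_not] at hxA
      have h8 : (rot S A)⁻¹ x = x := rot_inv_of_not_mem hxA'
      rw [hB] at hx
      unfold wrong at hx
      simp only [mem_filter, mem_univ, true_and] at hx
      exact hx (by rw [h8, hxA])
    · intro x hx h
      have h9 : π x = x := by
        rw [← h5]
        unfold sec
        rw [Equiv.Perm.mul_apply, Equiv.Perm.inv_eq_iff_eq]
        exact h
      have hx2 : x ∉ A := by rw [hA, wrong_id, not_not]; exact h9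
      have h8 : rot S A x = x := rot_of_not_mem hx2
      rw [h8] at h
      exact rot_inv_ne hS hB2 hx h
  · rintro ⟨⟨A, B⟩, ⟨h1, h2, h3⟩, rfl⟩
    simp only at h1 h2 h3
    have e1 := wrong_id_sec hS h1 h2 h3
    have e2 := wrong_rot_sec (A := A) hS h2
    have g1 : guess S (sec S (A, B)) 1 = ⇑(rot S A)⁻¹ := by
      simp only [guess, next_eq, Function.id_comp, e1]
    have g2 : guess S (sec S (A, B)) 2 = ⇑(sec S (A, B)) := by
      rw [guess, next_eq, g1, e2]
      rfl
    refine ⟨by norm_num, g2, ?_⟩
    intro s hs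
    have : s = 0 ∨ s = 1 := by omega
    have hBne : B.Nonempty := Finset.card_pos.1 (by omega)
    obtain ⟨x, hx⟩ := hBne
    rcases this with rfl | rfl
    · intro h
      have : x ∈ wrong id (sec S (A, B)) := by rw [e1]; exact h1 hx
      rw [wrong_id] at this
      exact this (congrFun h x).symm
    · intro h
      rw [g1] at h
      rw [← e2] at hx
      unfold wrong at hx
      simp only [mem_filter, mem_univ, true_and] at hx
      exact hx (congrFun h x)

open Classical in
/-- the set of good pairs -/
noncomputable def pairs (n : ℕ) (S : (k : ℕ) → Equiv.Perm (Fin k)) :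
    Finset (Finset (Fin n) × Finset (Fin n)) :=
  univ.filter (fun p => p.2 ⊆ p.1 ∧ 2 ≤ p.2.card ∧ Good S p.1 p.2)

theorem a_three (hS : Deranged n S) : a n S 3 = (pairs n S).card := by
  classical
  have h : (pairs n S).card = ((pairs n S).image (sec S)).card := by
    symm
    apply Finset.card_image_of_injOn
    rintro ⟨A, B⟩ hp ⟨A', B'⟩ hq hpq
    simp only [pairs, coe_filter, mem_univ, true_and, Set.mem_ofPred_eq] at hp hq
    have e1 := wrong_id_sec hS hp.1 hp.2.1 hp.2.2
    have e2 := wrong_id_sec hS hq.1 hq.2.1 hq.2.2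
    rw [hpq, e2] at e1
    subst e1
    have e3 := wrong_rot_sec (A := A') hS hp.2.1
    have e4 := wrong_rot_sec (A := A') hS hq.2.1
    rw [hpq, e4] at e3
    subst e3
    rfl
  rw [h]
  unfold a
  rw [← Nat.card_eq_finsetCard]
  apply Nat.card_congr
  apply Equiv.subtypeEquivRight
  intro π
  rw [endsAt_iff hS, mem_image]
  simp only [pairs, mem_filter, mem_univ, true_and]

open Classical in
/-- the bad subsets of `A` -/
noncomputable def bad (S : (k : ℕ) → Equiv.Perm (Fin k)) (A : Finset (Fin n)) :
    Finset (Finset (Fin n)) :=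
  A.powerset.filter (fun B => 2 ≤ B.card ∧ ¬ Good S A B)

open Classical in
theorem card_pairs : (pairs n S).card + ∑ A : Finset (Fin n), (bad S A).card =
    ∑ A : Finset (Fin n), (A.powerset.filter (fun B => 2 ≤ B.card)).card := by
  have h : (pairs n S).card =
      ∑ A : Finset (Fin n), (A.powerset.filter (fun B => 2 ≤ B.card ∧ Good S A B)).card := by
    unfold pairs
    rw [Finset.card_filter, Fintype.sum_prod_type]
    refine Finset.sum_congr rfl (fun A _ => ?_)
    rw [← Finset.card_filter]
    congr 1
    ext B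
    simp only [mem_filter, mem_univ, true_and, mem_powerset]
  rw [h, ← Finset.sum_add_distrib]
  refine Finset.sum_congr rfl (fun A _ => ?_)
  unfold bad
  rw [← Finset.filter_filter, ← Finset.filter_filter, Finset.card_filter_add_card_filter_not]

/-! ### the cyclic shift -/

theorem cyc_spec {A : Finset (Fin n)} (h2 : 2 ≤ A.card) {x y : Fin n} (hx : x ∈ A)
    (h : rot CS A x = y) : (x < y ∧ ∀ z ∈ A, z ≤ x ∨ y ≤ z) ∨ (y < x ∧ ∀ z ∈ A, y ≤ z ∧ z ≤ x) := by
  obtain ⟨j, hj⟩ := (A.orderIsoOfFin rfl).surjective ⟨x, hx⟩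
  have hx' : x = A.orderIsoOfFin rfl j := by rw [hj]
  rw [hx', rot_mem] at h
  obtain ⟨m, hm⟩ : ∃ m, A.card = m + 1 := ⟨A.card - 1, by omega⟩
  have hz : ∀ z ∈ A, ∃ i, z = A.orderIsoOfFin rfl i := by
    intro z hz
    obtain ⟨i, hi⟩ := (A.orderIsoOfFin rfl).surjective ⟨z, hz⟩
    exact ⟨i, by rw [hi]⟩
  have key : ∀ (k : ℕ) (j : Fin k), 2 ≤ k → (((finRotate k j : Fin k) : ℕ) = j + 1) ∨
      (((finRotate k j : Fin k) : ℕ) = 0 ∧ (j : ℕ) + 1 = k) := by
    intro k j hk
    obtain ⟨m, rfl⟩ : ∃ m, k = m + 1 := ⟨k - 1, by omega⟩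
    rcases lt_or_eq_of_le (Nat.lt_succ_iff.1 j.2) with h | h
    · left
      exact coe_finRotate_of_ne_last (fun h' => by rw [h'] at h; simp at h)
    · right
      have : j = Fin.last m := Fin.ext h
      rw [this]
      simp
  rw [hx', ← h]
  rcases key _ j h2 with h1 | ⟨h1, h3⟩
  · left
    constructor
    · rw [Subtype.coe_lt_coe, OrderIso.lt_iff_lt, Fin.lt_def]
      unfold CS
      omega
    · intro z hzA
      obtain ⟨i, rfl⟩ := hz z hzA
      rw [Subtype.coe_le_coe, Subtype.coe_le_coe, OrderIso.le_iff_le, OrderIso.le_iff_le,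
        Fin.le_def, Fin.le_def]
      unfold CS
      omega
  · right
    constructor
    · rw [Subtype.coe_lt_coe, OrderIso.lt_iff_lt, Fin.lt_def]
      unfold CS
      omega
    · intro z hzA
      obtain ⟨i, rfl⟩ := hz z hzA
      rw [Subtype.coe_le_coe, Subtype.coe_le_coe, OrderIso.le_iff_le, OrderIso.le_iff_le,
        Fin.le_def, Fin.le_def]
      unfold CS
      have := i.2
      omega

theorem bad_CS {A B : Finset (Fin n)} (hB : B ∈ bad CS A) : ∃ x ∈ A, B = {x, rot CS A x} := by
  classical
  unfold bad at hB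
  rw [mem_filter, mem_powerset] at hB
  obtain ⟨hBA, h2, h3⟩ := hB
  unfold Good at h3
  push Not at h3
  obtain ⟨x, hx, h4⟩ := h3
  refine ⟨x, hBA hx, ?_⟩
  have h5 := cyc_spec (h2.trans (card_le_card hBA)) (hBA hx) rfl
  have hy : rot CS A x ∈ B := by rw [← h4]; exact rot_inv_mem_iff.2 hx
  have h6 : rot CS B (rot CS A x) = x := by
    rw [← h4]; simp
  have h7 := cyc_spec h2 hy h6
  ext z
  simp only [mem_insert, mem_singleton]
  constructor
  · intro hz
    rcases h5 with ⟨h5, h8⟩ | ⟨h5, h8⟩ <;> rcases h7 with ⟨h7, h9⟩ | ⟨h7, h9⟩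
    · exact absurd h5 (not_lt.2 h7.le)
    · have a1 := h8 z (hBA hz)
      have a2 := h9 z hz
      rcases a1 with a1 | a1
      · left; exact le_antisymm a1 a2.1
      · right; exact le_antisymm a2.2 a1
    · have a1 := h8 z (hBA hz)
      have a2 := h9 z hz
      rcases a2 with a2 | a2
      · right; exact le_antisymm a2 a1.1
      · left; exact le_antisymm a1.2 a2
    · exact absurd h5 (not_lt.2 h7.le)
  · rintro (rfl | rfl)
    · exact hx
    · exact hy

theorem card_bad_CS_le (A : Finset (Fin n)) : (bad CS A).card ≤ A.card := by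
  classical
  calc (bad CS A).card ≤ (A.image (fun x => ({x, rot CS A x} : Finset (Fin n)))).card := by
        apply Finset.card_le_card
        intro B hB
        obtain ⟨x, hx, rfl⟩ := bad_CS hB
        exact mem_image_of_mem _ hx
    _ ≤ A.card := Finset.card_image_le

/-! ### the lower bound for the number of bad sets -/

theorem pair_bad (hS : Deranged n S) {A : Finset (Fin n)} (h2 : 2 ≤ A.card) {x : Fin n}
    (hx : x ∈ A) : ({x, rot S A x} : Finset (Fin n)) ∈ bad S A := by
  classical
  have hne := rot_ne hS h2 hx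
  have hc : ({x, rot S A x} : Finset (Fin n)).card = 2 := Finset.card_pair hne.symm
  unfold bad
  rw [mem_filter, mem_powerset]
  refine ⟨?_, hc.ge, ?_⟩
  · intro z hz
    simp only [mem_insert, mem_singleton] at hz
    rcases hz with rfl | rfl
    · exact hx
    · exact rot_mem_iff.2 hx
  · intro hg
    set B : Finset (Fin n) := {x, rot S A x} with hB
    have hxB : x ∈ B := by simp [hB]
    apply hg x hxB
    have h3 := rot_inv_ne hS hc.ge hxB
    have h4 : (rot S B)⁻¹ x ∈ B := rot_inv_mem_iff.2 hxB
    rw [hB, mem_insert, mem_singleton] at h4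
    rw [← hB] at h4
    rcases h4 with h4 | h4
    · exact absurd h4 h3
    · exact h4

theorem triple_bad (hS : Deranged n S) {A : Finset (Fin n)} (h2 : 2 ≤ A.card) {x z : Fin n}
    (hx : x ∈ A) (hz : z ∈ A) (h1 : rot S A (rot S A x) = x) (hzx : z ≠ x)
    (hzy : z ≠ rot S A x) : ({x, rot S A x, z} : Finset (Fin n)) ∈ bad S A := by
  classical
  have hne := rot_ne hS h2 hx
  have hc : ({x, rot S A x, z} : Finset (Fin n)).card = 3 :=
    Finset.card_eq_three.2 ⟨_, _, _, hne.symm, hzx.symm, hzy.symm, rfl⟩
  unfold bad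
  rw [mem_filter, mem_powerset]
  refine ⟨?_, by omega, ?_⟩
  · intro w hw
    simp only [mem_insert, mem_singleton] at hw
    rcases hw with rfl | rfl | rfl
    · exact hx
    · exact rot_mem_iff.2 hx
    · exact hz
  · intro hg
    set B : Finset (Fin n) := {x, rot S A x, z} with hB
    have hxB : x ∈ B := by simp [hB]
    have hyB : rot S A x ∈ B := by simp [hB]
    have a1 := hg x hxB
    have a2 := hg _ hyB
    rw [h1] at a2
    have b1 := rot_inv_ne hS (show 2 ≤ B.card by omega) hxB
    have b2 := rot_inv_ne hS (show 2 ≤ B.card by omega) hyB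
    have c1 : (rot S B)⁻¹ x ∈ B := rot_inv_mem_iff.2 hxB
    have c2 : (rot S B)⁻¹ (rot S A x) ∈ B := rot_inv_mem_iff.2 hyB
    rw [hB, mem_insert, mem_insert, mem_singleton, ← hB] at c1 c2
    have d1 : (rot S B)⁻¹ x = z := by
      rcases c1 with h | h | h
      · exact absurd h b1
      · exact absurd h a1
      · exact h
    have d2 : (rot S B)⁻¹ (rot S A x) = z := by
      rcases c2 with h | h | h
      · exact absurd h a2
      · exact absurd h b2
      · exact h
    rw [← d1] at d2
    exact hne ((rot S B)⁻¹.injective d2)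

theorem le_card_bad (hS : Deranged n S) {A : Finset (Fin n)} (h3 : 3 ≤ A.card) :
    A.card ≤ (bad S A).card := by
  classical
  have hz : ∀ x, ∃ z ∈ A, z ≠ x ∧ z ≠ rot S A x := by
    intro x
    by_contra hc
    push Not at hc
    have : A ⊆ {x, rot S A x} := by
      intro z hz
      by_cases h : z = x
      · simp [h]
      · simp [hc z hz h]
    have := (card_le_card this).trans card_le_two
    omega
  choose z hzA hzx hzy using hz
  let P : Fin n → Prop := fun x => rot S A (rot S A x) = x ∧ rot S A x < x
  let f : Fin n → Finset (Fin n) := fun x => if P x then {x, rot S A x, z x} else {x, rot S A x}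
  have hne : ∀ x ∈ A, rot S A x ≠ x := fun x hx => rot_ne hS (by omega) hx
  have c3 : ∀ x ∈ A, P x → (f x).card = 3 := by
    intro x hx hp
    simp only [f, if_pos hp]
    exact Finset.card_eq_three.2 ⟨_, _, _, (hne x hx).symm, (hzx x).symm, (hzy x).symm, rfl⟩
  have c2 : ∀ x ∈ A, ¬ P x → (f x).card = 2 := by
    intro x hx hp
    simp only [f, if_neg hp]
    exact Finset.card_pair (hne x hx).symm
  apply Finset.card_le_card_of_injOn f
  · intro x hx
    simp only [f]
    split_ifs with hp
    · exact triple_bad hS (by omega) hx (hzA x) hp.1 (hzx x) (hzy x)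
    · exact pair_bad hS (by omega) hx
  · intro x hx y hy hxy
    by_contra hne'
    by_cases hp : P x <;> by_cases hq : P y
    · simp only [f, if_pos hp, if_pos hq] at hxy
      have m1 : y ∈ ({x, rot S A x, z x} : Finset (Fin n)) := by rw [hxy]; simp
      have m2 : rot S A y ∈ ({x, rot S A x, z x} : Finset (Fin n)) := by rw [hxy]; simp
      simp only [mem_insert, mem_singleton] at m1 m2
      have n1 : y ≠ rot S A x := by
        intro h
        have h1 := hp.1
        have h2 := hp.2
        have h3 := hq.2
        rw [← h] at h1 h2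
        rw [h1] at h3
        exact lt_asymm h2 h3
      have n2 : y = z x := by
        rcases m1 with h | h | h
        · exact absurd h.symm hne'
        · exact absurd h n1
        · exact h
      rcases m2 with h | h | h
      · apply n1
        rw [← h, hq.1]
      · exact hne' ((rot S A).injective h).symm
      · rw [← n2] at h
        exact hne y hy h
    · have := c3 x hx hp
      rw [hxy, c2 y hy hq] at this
      omega
    · have := c2 x hx hp
      rw [hxy, c3 y hy hq] at this
      omega
    · simp only [f, if_neg hp, if_neg hq] at hxy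
      have m1 : y ∈ ({x, rot S A x} : Finset (Fin n)) := by rw [hxy]; simp
      have m2 : x ∈ ({y, rot S A y} : Finset (Fin n)) := by rw [← hxy]; simp
      simp only [mem_insert, mem_singleton] at m1 m2
      have e1 : y = rot S A x := by
        rcases m1 with h | h
        · exact absurd h.symm hne'
        · exact h
      have e2 : x = rot S A y := by
        rcases m2 with h | h
        · exact absurd h hne'
        · exact h
      have f1 : ¬ (rot S A x < x) := fun h => hp ⟨by rw [← e1, ← e2], h⟩
      have f2 : ¬ (rot S A y < y) := fun h => hq ⟨by rw [← e2, ← e1], h⟩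
      rw [← e1] at f1
      rw [← e2] at f2
      exact hne' (le_antisymm (not_lt.1 f1) (not_lt.1 f2))

theorem bad_CS_le_bad (hS : Deranged n S) (A : Finset (Fin n)) :
    (bad CS A).card ≤ (bad S A).card := by
  classical
  rcases Nat.lt_or_ge A.card 2 with h | h
  · have : bad CS A = ∅ := by
      rw [Finset.eq_empty_iff_forall_notMem]
      intro B hB
      unfold bad at hB
      rw [mem_filter, mem_powerset] at hB
      have := card_le_card hB.1
      omega
    rw [this]; simp
  · rcases Nat.lt_or_ge A.card 3 with h3 | h3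
    · have h4 : A.card = 2 := by omega
      have h5 : bad CS A ⊆ {A} := by
        intro B hB
        unfold bad at hB
        rw [mem_filter, mem_powerset] at hB
        rw [mem_singleton]
        exact Finset.eq_of_subset_of_card_le hB.1 (by omega)
      obtain ⟨x, hx⟩ := Finset.card_pos.1 (show 0 < A.card by omega)
      have h6 : 0 < (bad S A).card := Finset.card_pos.2 ⟨_, pair_bad hS h hx⟩
      have h7 := card_le_card h5
      rw [card_singleton] at h7
      omega
    · exact (card_bad_CS_le A).trans (le_card_bad hS h3)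

theorem deranged_CS : Deranged n CS := by
  intro k hk _ i h
  obtain ⟨m, rfl⟩ : ∃ m, k = m + 1 := ⟨k - 1, by omega⟩
  have h2 : ((finRotate (m + 1) i : Fin (m + 1)) : ℕ) = i := by
    have := congrArg Fin.val h
    exact this
  rcases lt_or_eq_of_le (Nat.lt_succ_iff.1 i.2) with h1 | h1
  · rw [coe_finRotate_of_ne_last (fun h' => by rw [h'] at h1; simp at h1)] at h2
    omega
  · have : i = Fin.last m := Fin.ext h1
    rw [this] at h2
    simp at h2
    omega

/-- For every `n` (in particular for `n ≥ 4`) and every deranged strategy `S`, at most as many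
secrets of length `n` are found in exactly three guesses with `S` as with the cyclic shift. -/
theorem result : ∀ (n : ℕ) (S : (k : ℕ) → Equiv.Perm (Fin k)), Deranged n S →
    a n S 3 ≤ a n CS 3 := by
  intro n S hS
  rw [a_three hS, a_three deranged_CS]
  have h1 := card_pairs (n := n) (S := S)
  have h2 := card_pairs (n := n) (S := CS)
  have h3 : ∑ A : Finset (Fin n), (bad CS A).card ≤ ∑ A : Finset (Fin n), (bad S A).card :=
    Finset.sum_le_sum (fun A _ => bad_CS_le_bad hS A)
  omega

end Pool.Agent.Results.MP_433145_co.CyclicShiftBest
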